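import Pool.Agent.Q206.Intro.Ops

set_option autoImplicit false

/-!
# An introreducible set which is not finitely decomposable (MP_76bd4c_lc, Q1)

The definitions are in `Pool/Agent/Q206/Intro/Defs.lean`: `TRed` is Turing reducibility of sets
(Mathlib's `TuringReducible` for characteristic functions), a Turing operator is a c.e. set `W` of
axioms `(σ, n, b)`, `Computes W C A` says that the operator `W` with oracle `C` computes `A`, and
`UIT A B` is `A ≤^{ui}_T B`. The first part of the theorem checks the operators against Mathlib's
Turing reducibility.

The set is `A_Z = {(j, (Z with Z(j) erased) restricted to m) : j < m}` for a sufficiently Cohen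
generic `Z`. Every infinite subset of `A_Z` computes `Z` with at most one value missing. If `Y` is
`Z` with the value at `j` erased, then for each tuple of `n + 1` operators there are at most `n + 1`
values `v` which the operators can recover on the pieces of a decomposition of the column `j` (shown
by a game and an ultrafilter); genericity makes `Z(j)` another value for some `j`.
-/

namespace Pool.Agent.Results.MP_76bd4c_lc.NotFinitelyDecomposable

open Q206.Intro

theorem result :
    (∀ A B : Set ℕ, TRed A B ↔
      ∃ W : Set (List Bool × ℕ × Bool), REPred (fun x => x ∈ W) ∧ Computes W B A) ∧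
    ∃ A : Set ℕ, Introreducible A ∧
      ¬ ∃ (n : ℕ) (B : Fin (n + 1) → Set ℕ), A = ⋃ i, B i ∧ ∀ i, UIT A (B i) := by
  refine ⟨fun A B => tRed_iff_computes, ?_⟩
  obtain ⟨A, h1, -, h2, -⟩ := exists_set
  exact ⟨A, h1, fun ⟨n, B, hB, h3⟩ => h2 (n + 1) B hB h3⟩

end Pool.Agent.Results.MP_76bd4c_lc.NotFinitelyDecomposable
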